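import Pool.Agent.Lib_MP_1dfcde_lc.Main

open scoped Ordinal Cardinal

namespace Pool.Agent.Results.MP_1dfcde_lc.DiamondBlockMad

open Pool.Agent.BlockMad

variable {F : Type} [Field F]

/-- enumerating a countable infinite family -/
theorem exists_enum {A : Set (Submodule F (ℕ →₀ F))} (hinf : A.Infinite) (hc : A.Countable) :
    ∃ X : ℕ → Submodule F (ℕ →₀ F), Function.Injective X ∧ Set.range X = A := by
  have := hinf.to_subtype
  have := hc.to_subtype
  obtain ⟨e⟩ : Nonempty (ℕ ≃ A) := by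
    obtain ⟨_⟩ := nonempty_denumerable A
    exact ⟨(Denumerable.eqv A).symm⟩
  refine ⟨fun n => (e n : Submodule F (ℕ →₀ F)), ?_, ?_⟩
  · exact Subtype.val_injective.comp e.injective
  · ext B
    constructor
    · rintro ⟨n, rfl⟩
      exact (e n).2
    · intro hB
      exact ⟨e.symm ⟨B, hB⟩, by simp⟩

/-- A countable infinite almost disjoint family of subspaces has a block subspace almost
disjoint from all its members. -/
theorem exists_block_of_countable {A : Set (Submodule F (ℕ →₀ F))} (hinf : A.Infinite)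
    (hc : A.Countable) (hA : IsADFamily A) :
    ∃ x : ℕ → (ℕ →₀ F), IsBlockSeq x ∧
      ∀ X ∈ A, AlmostDisj (Submodule.span F (Set.range x)) X := by
  obtain ⟨X, hX1, hX2⟩ := exists_enum hinf hc
  have hmem : ∀ i, X i ∈ A := fun i => by rw [← hX2]; exact ⟨i, rfl⟩
  obtain ⟨x, hx, hx2⟩ := exists_block_ad (X := X) (fun i => hA.1 _ (hmem i))
    (fun i j hij => hA.2 (hmem i) (hmem j) (fun h => hij (hX1 h)))
  refine ⟨x, hx, fun B hB => ?_⟩
  rw [← hX2] at hB
  obtain ⟨i, rfl⟩ := hB
  exact hx2 i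

theorem aleph_one_le_of_not_countable {A : Set (Submodule F (ℕ →₀ F))} (h : ¬ A.Countable) :
    ℵ₁ ≤ #A := by
  rw [← Cardinal.succ_aleph0, Order.succ_le_iff]
  by_contra hcon
  exact h (Cardinal.le_aleph0_iff_set_countable.1 (not_lt.1 hcon))

/-- every infinite mad family of subspaces is uncountable. -/
theorem aleph_one_le_of_mad {A : Set (Submodule F (ℕ →₀ F))} (hinf : A.Infinite)
    (hA : IsMadFamily A) : ℵ₁ ≤ #A := by
  apply aleph_one_le_of_not_countable
  intro hc
  obtain ⟨x, hx, hx2⟩ := exists_block_of_countable hinf hc hA.1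
  have hB : IsADFamily (insert (Submodule.span F (Set.range x)) A) := by
    refine ⟨?_, ?_⟩
    · intro X hX
      rcases hX with rfl | hX
      · exact hx.not_fd_span
      · exact hA.1.1 X hX
    · intro X hX Y hY hXY
      rcases hX with rfl | hX
      · rcases hY with rfl | hY
        · exact absurd rfl hXY
        · exact hx2 Y hY
      · rcases hY with rfl | hY
        · exact (hx2 X hX).symm
        · exact hA.1.2 hX hY hXY
  have heq := hA.2 _ hB (Set.subset_insert _ _)
  have hmem : Submodule.span F (Set.range x) ∈ A := by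
    rw [← heq]; exact Set.mem_insert _ _
  have := hx2 _ hmem
  rw [AlmostDisj, inf_idem] at this
  exact hx.not_fd_span this

/-- **Main theorem.**  For every countable field `F`, the parametrized diamond principle
`◇(ω^ω, =^∞)` implies that there is a mad family of block subspaces of `E = ℕ →₀ F` of
cardinality `ℵ₁`, and that `𝔞_vec,F = ℵ₁`. -/
theorem result (hD : ParametrizedDiamond) (F : Type) [Field F] [Countable F] :
    (∃ A : Set (Submodule F (ℕ →₀ F)), IsMadBlockFamily A ∧ #A = ℵ₁) ∧ aVec F = ℵ₁ := by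
  obtain ⟨x, hx1, hx2, hx3, hx4⟩ := main_construction (F := F) hD
  let A : Set (Submodule F (ℕ →₀ F)) :=
    {X | (∃ n, X = Submodule.span F (Set.range (baseSeq F n))) ∨
      ∃ δ < ω₁, IsBlockSeq (x δ) ∧ X = Submodule.span F (Set.range (x δ))}
  have hbase : ∀ n, Submodule.span F (Set.range (baseSeq F n)) ∈ A := fun n => Or.inl ⟨n, rfl⟩
  -- pairwise almost disjoint
  have hpair : A.Pairwise AlmostDisj := by
    rintro X hX Y hY hXY
    rcases hX with ⟨n, rfl⟩ | ⟨δ, hδ, hb, rfl⟩
    · rcases hY with ⟨m, rfl⟩ | ⟨ε, hε, hc, rfl⟩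
      · exact baseSeq_ad (fun h => hXY (by rw [h]))
      · exact (hx2 ε hε n).symm
    · rcases hY with ⟨m, rfl⟩ | ⟨ε, hε, hc, rfl⟩
      · exact hx2 δ hδ m
      · rcases lt_trichotomy δ ε with h | h | h
        · exact (hx3 ε hε δ h).symm
        · exact absurd (by rw [h]) hXY
        · exact hx3 δ hδ ε h
  have hAblock : ∀ X ∈ A, IsBlockSubspace X := by
    rintro X (⟨n, rfl⟩ | ⟨δ, hδ, hb, rfl⟩)
    · exact ⟨_, baseSeq_block n, rfl⟩
    · exact ⟨_, hb, rfl⟩
  have hAnfd : ∀ X ∈ A, ¬ FiniteDimensional F X := by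
    intro X hX
    obtain ⟨y, hy, rfl⟩ := hAblock X hX
    exact hy.not_fd_span
  -- strong maximality
  have hmax : ∀ y : ℕ → (ℕ →₀ F), IsBlockSeq y →
      (∀ X ∈ A, AlmostDisj (Submodule.span F (Set.range y)) X) → False := by
    intro y hy hyA
    refine hx4 y hy (fun n => hyA _ (hbase n)) ?_
    intro δ hδ
    rcases hx1 δ hδ with h | h
    · exact hyA _ (Or.inr ⟨δ, hδ, h, rfl⟩)
    · rw [h]; exact almostDisj_zero
  have hAinf : A.Infinite := by
    refine Set.infinite_of_injective_forall_mem (f := fun n : ℕ =>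
      Submodule.span F (Set.range (baseSeq F n))) ?_ hbase
    intro n m hnm
    by_contra hne
    have h1 := baseSeq_ad (F := F) hne
    have h2 : Submodule.span F (Set.range (baseSeq F n)) =
      Submodule.span F (Set.range (baseSeq F m)) := hnm
    rw [h2, AlmostDisj, inf_idem] at h1
    exact (baseSeq_block m).not_fd_span h1
  have hmadblock : IsMadBlockFamily A := by
    refine ⟨⟨hAblock, hpair⟩, ?_⟩
    intro B hB hAB
    refine Set.Subset.antisymm ?_ hAB
    intro Y hY
    by_contra hYA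
    obtain ⟨y, hy, rfl⟩ := hB.1 Y hY
    refine hmax y hy fun X hX => ?_
    exact hB.2 hY (hAB hX) (fun h => hYA (h ▸ hX))
  have hmad : IsMadFamily A := by
    refine ⟨⟨hAnfd, hpair⟩, ?_⟩
    intro B hB hAB
    refine Set.Subset.antisymm ?_ hAB
    intro Y hY
    by_contra hYA
    obtain ⟨y, hy, hyY⟩ := exists_block_le (hB.1 Y hY)
    refine hmax y hy fun X hX => ?_
    exact (hB.2 hY (hAB hX) (fun h => hYA (h ▸ hX))).mono_left hyY
  have hlower : ℵ₁ ≤ #A := aleph_one_le_of_mad hAinf hmad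
  have hupper : #A ≤ ℵ₁ := by
    let f : (ℕ ⊕ Set.Iio (ω₁ : Ordinal.{0})) → Submodule F (ℕ →₀ F) := fun s =>
      Sum.elim (fun n => Submodule.span F (Set.range (baseSeq F n)))
        (fun δ => Submodule.span F (Set.range (x δ.1))) s
    have hsub : A ⊆ Set.range f := by
      rintro X (⟨n, rfl⟩ | ⟨δ, hδ, hb, rfl⟩)
      · exact ⟨Sum.inl n, rfl⟩
      · exact ⟨Sum.inr ⟨δ, hδ⟩, rfl⟩
    have h1 : Cardinal.lift.{1, 0} #A ≤ Cardinal.lift.{1, 0} #(Set.range f) :=
      Cardinal.lift_le.2 (Cardinal.mk_le_mk_of_subset hsub)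
    have h2 : Cardinal.lift.{1, 0} #(Set.range f) ≤
        Cardinal.lift.{0, 1} #(ℕ ⊕ Set.Iio (ω₁ : Ordinal.{0})) := Cardinal.mk_range_le_lift
    have h3 : #(ℕ ⊕ Set.Iio (ω₁ : Ordinal.{0})) = Cardinal.lift.{1, 0} (ℵ₁ : Cardinal.{0}) := by
      rw [Cardinal.mk_sum, Cardinal.mk_Iio_ordinal]
      simp only [Cardinal.mk_eq_aleph0, Cardinal.lift_aleph0, Ordinal.card_omega,
        Cardinal.lift_aleph, Ordinal.lift_one]
      exact Cardinal.add_eq_right (Cardinal.aleph0_le_aleph 1) (Cardinal.aleph0_le_aleph 1)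
    have h4 : Cardinal.lift.{1, 0} #A ≤ Cardinal.lift.{1, 0} (ℵ₁ : Cardinal.{0}) := by
      refine (h1.trans h2).trans ?_
      rw [h3]
      simp
    exact Cardinal.lift_le.1 h4
  have hcard : #A = ℵ₁ := le_antisymm hupper hlower
  refine ⟨⟨A, hmadblock, hcard⟩, ?_⟩
  apply le_antisymm
  · exact csInf_le' ⟨A, hAinf, hmad, hcard⟩
  · refine le_csInf ⟨#A, A, hAinf, hmad, rfl⟩ ?_
    rintro κ ⟨B, hBinf, hBmad, rfl⟩
    exact aleph_one_le_of_mad hBinf hBmad

end Pool.Agent.Results.MP_1dfcde_lc.DiamondBlockMad
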